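import Mathlib

set_option autoImplicit false
set_option maxHeartbeats 400000

namespace Pool.Agent.H.MP_94c9ac_al

open Finset

lemma ar1 (s r b f x q w : ℕ) (hb : 1 ≤ b) (hq : q ≤ x) (hq' : q ≤ b)
    (h1 : x + q ≤ (s + 3 + r) * b) (h2 : (s + 3 + r) * b + (s + 3 + r) * (s + 2) * f < x + q + w) :
    ∃ a c u, a + c = s + 3 + r ∧ c * b ≤ x + u ∧ (s + 3) * a * f + (s + 3) * u < w ∧ 1 ≤ a ∧
      (u = 0 ∨ 2 ≤ a) := by
  by_cases h : b ≤ f
  · by_cases h3 : (s + 1 + r) * b ≤ x
    · refine ⟨2, s + 1 + r, 0, by ring, by simpa using h3, ?_, by norm_num, Or.inl rfl⟩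
      nlinarith [Nat.zero_le (s * s * f), Nat.zero_le (s * f), Nat.zero_le (r * s * f),
        Nat.zero_le (r * f)]
    · obtain ⟨u, hu⟩ := Nat.exists_eq_add_of_le (not_le.1 h3).le
      refine ⟨2, s + 1 + r, u, by ring, hu.le, ?_, by norm_num, Or.inr le_rfl⟩
      have h4 := Nat.mul_le_mul_left (s * s + 3 * s + r * s + 2 * r) h
      have h5 := congrArg (fun z => (s + 3) * z) hu
      nlinarith [Nat.zero_le (s * x)]
  · have h' : f < b := not_le.1 h
    by_cases h3 : x < b
    · obtain ⟨u, hu⟩ := Nat.exists_eq_add_of_le h3.le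
      refine ⟨s + 2 + r, 1, u, by ring, by omega, ?_, by omega, Or.inr (by omega)⟩
      have h4 := Nat.mul_le_mul_left r h'.le
      have h5 := congrArg (fun z => (s + 3) * z) hu
      nlinarith [Nat.zero_le (s * x)]
    · obtain ⟨c, hc⟩ : ∃ c, x / b = c + 1 := ⟨x / b - 1, by
        have := Nat.div_pos (not_lt.1 h3) hb
        omega⟩
      have h4 : (c + 1) * b ≤ x := hc ▸ Nat.div_mul_le_self x b
      have h5 : x < (c + 2) * b := by
        have := Nat.lt_div_mul_add (a := x) hb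
        rw [hc] at this
        nlinarith
      have h6 : c + 1 ≤ s + 3 + r := by
        by_contra h7
        nlinarith
      obtain ⟨a, ha⟩ := Nat.exists_eq_add_of_le h6
      rw [ha] at h1
      have h8 := congrArg (fun z => z * b) ha
      have h9 := congrArg (fun z => z * ((s + 2) * f)) ha
      have hw : (s + 3 + r) * (s + 2) * f < w := by nlinarith
      rcases a with _ | _ | a
      · refine ⟨1, s + 2 + r, 0, by ring, ?_, ?_, le_rfl, Or.inl rfl⟩
        · nlinarith
        · nlinarith [Nat.zero_le (s * s * f), Nat.zero_le (s * f), Nat.zero_le (r * s * f),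
            Nat.zero_le (r * f)]
      · refine ⟨1, c + 1, 0, by omega, by simpa using h4, ?_, le_rfl, Or.inl rfl⟩
        nlinarith [Nat.zero_le (s * s * f), Nat.zero_le (s * f), Nat.zero_le (r * s * f),
            Nat.zero_le (r * f)]
      · refine ⟨a + 2, c + 1, 0, by omega, by simpa using h4, ?_, by omega, Or.inl rfl⟩
        have h10 := Nat.mul_le_mul_left a h'.le
        nlinarith [Nat.zero_le (s * c * f), Nat.zero_le (s * f), Nat.zero_le (c * f)]

lemma ar2 {V : Type} [DecidableEq V] (Zs : Finset V) (w f : V → ℕ) (hf : ∀ Z ∈ Zs, 1 ≤ f Z)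
    (t x q F : ℕ) (ht : 2 ≤ t) (hq : q ≤ x) (hq' : q ≤ 1)
    (hF : 1 + 2 * ∑ Z ∈ Zs, f Z ≤ F + Zs.card) (h : t * F < x + q + ∑ Z ∈ Zs, w Z) :
    ∃ a : V → ℕ, t ≤ x + ∑ Z ∈ Zs, a Z ∧ ∀ Z ∈ Zs, a Z = 0 ∨ 2 * a Z * f Z < w Z := by
  obtain ⟨a, ha⟩ : ∃ a : V → ℕ, a = fun Z => (w Z - 1) / (2 * f Z) := ⟨_, rfl⟩
  have h1 : ∀ Z ∈ Zs, w Z ≤ 2 * (a Z + 1) * f Z := by
    intro Z hZ
    have := Nat.lt_div_mul_add (a := w Z - 1) (b := 2 * f Z) (by have := hf Z hZ; omega)
    have h2 : 2 * (a Z + 1) * f Z = (w Z - 1) / (2 * f Z) * (2 * f Z) + 2 * f Z := by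
      rw [ha]; ring
    omega
  refine ⟨a, ?_, fun Z hZ => ?_⟩
  · by_contra h2
    have h3 : ∀ Z ∈ Zs, a Z + 2 ≤ t → w Z + t ≤ 2 * t * f Z + a Z := by
      intro Z hZ h4
      obtain ⟨e, rfl⟩ := Nat.exists_eq_add_of_le h4
      have := h1 Z hZ
      have := Nat.mul_le_mul_left (e + 1) (hf Z hZ)
      nlinarith
    have h5 := Nat.mul_le_mul_left t hF
    by_cases h4 : ∀ Z ∈ Zs, a Z + 2 ≤ t
    · have := sum_le_sum (fun Z hZ => h3 Z hZ (h4 Z hZ))
      rw [sum_add_distrib, sum_add_distrib, ← mul_sum, sum_const, smul_eq_mul] at this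
      nlinarith
    · push Not at h4
      obtain ⟨Z, hZ, h4⟩ := h4
      have h6 := add_sum_erase Zs a hZ
      have h7 := add_sum_erase Zs w hZ
      have h8 := add_sum_erase Zs f hZ
      have h9 := card_erase_add_one hZ
      have h10 : ∀ Y ∈ Zs.erase Z, a Y + 2 ≤ t := fun Y hY => by
        have := single_le_sum (f := a) (fun _ _ => Nat.zero_le _) hY
        omega
      have := sum_le_sum (fun Y hY => h3 Y (mem_of_mem_erase hY) (h10 Y hY))
      rw [sum_add_distrib, sum_add_distrib, ← mul_sum, sum_const, smul_eq_mul] at this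
      have h11 := h1 Z hZ
      have h12 : a Z + 1 = t := by omega
      have h13 : ∑ Y ∈ Zs.erase Z, a Y = 0 := by omega
      have h14 : x = 0 := by omega
      have h15 : q = 0 := by omega
      rw [h12] at h11
      rw [← h8, ← h9] at h5
      rw [← h7] at h
      nlinarith
  · by_cases h2 : a Z = 0
    · exact Or.inl h2
    · right
      have h3 := Nat.div_mul_le_self (w Z - 1) (2 * f Z)
      have h4 : 2 * a Z * f Z = (w Z - 1) / (2 * f Z) * (2 * f Z) := by rw [ha]; ring
      have h5 : w Z ≠ 0 := by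
        intro h5
        apply h2
        simp [ha, h5]
      omega

lemma exact_le {V : Type} [DecidableEq V] (T : Finset V) (U : V → ℕ) :
    ∀ u, u ≤ ∑ C ∈ T, U C → ∃ W : V → ℕ, W ≤ U ∧ ∑ C ∈ T, W C = u := by
  induction T using Finset.induction_on with
  | empty => intro u hu; exact ⟨U, le_rfl, by simp at hu; simp [hu]⟩
  | insert a T ha ih =>
    intro u hu
    rw [sum_insert ha] at hu
    obtain ⟨W, h1, h2⟩ := ih (u - U a) (by omega)
    refine ⟨Function.update W a (min u (U a)), fun C => ?_, ?_⟩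
    · by_cases h : C = a
      · subst h; simp
      · simpa [h] using h1 C
    · rw [sum_insert ha, sum_update_of_notMem ha, h2]
      simp only [Function.update_self]
      omega

/-- occupied indicator -/
def oc (n : ℕ) : ℕ := min n 1

lemma extr {V : Type} [DecidableEq V] (T : Finset V) (D : V → ℕ) (p e u : ℕ) (hp : 1 ≤ p)
    (he : e ≤ 1) (h : (p - 1 + e) * ∑ C ∈ T, oc (D C) + p * u < ∑ C ∈ T, D C + p) :
    ∃ U : V → ℕ, (∀ C, p * U C + e * oc (D C) ≤ D C) ∧ ∑ C ∈ T, U C = u := by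
  have h1 : ∀ C ∈ T, D C ≤ p * ((D C - e) / p) + (p - 1 + e) * oc (D C) := by
    intro C _
    have h2 := Nat.lt_div_mul_add (a := D C - e) (b := p) hp
    rw [mul_comm] at h2
    by_cases h3 : D C = 0
    · omega
    · have : oc (D C) = 1 := by unfold oc; omega
      rw [this]
      omega
  have h2 := sum_le_sum h1
  rw [sum_add_distrib, ← mul_sum, ← mul_sum] at h2
  obtain ⟨W, h3, h4⟩ := exact_le T (fun C => (D C - e) / p) u (by
    by_contra h5
    have := Nat.mul_le_mul_left p (Nat.succ_le_of_lt (not_le.1 h5))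
    rw [Nat.mul_succ] at this
    omega)
  refine ⟨W, fun C => ?_, h4⟩
  have h5 : p * W C ≤ p * ((D C - e) / p) := Nat.mul_le_mul_left p (h3 C)
  have h6 := Nat.mul_div_le (D C - e) p
  by_cases h7 : D C = 0
  · have : oc (D C) = 0 := by unfold oc; omega
    rw [this]
    omega
  · have : oc (D C) = 1 := by unfold oc; omega
    rw [this]
    omega

end Pool.Agent.H.MP_94c9ac_al
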