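import Mathlib
import Pool.Agent.H.MP_94c9ac_al.Arith

set_option autoImplicit false
set_option maxHeartbeats 400000

namespace Pool.Agent.H.MP_94c9ac_al

open Finset

variable {V : Type} [DecidableEq V]

structure RS (Rc : (V → ℕ) → (V → ℕ) → Prop) : Prop where
  trans : ∀ {a b c : V → ℕ}, Rc a b → Rc b c → Rc a c
  add : ∀ {a b c d : V → ℕ}, Rc a b → Rc c d → Rc (a + c) (b + d)
  drop : ∀ {a b : V → ℕ}, b ≤ a → Rc a b

structure St (Rc : (V → ℕ) → (V → ℕ) → Prop) (m : V → ℕ) (sub : V → ℕ → V) (R : V)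
    (P : Finset V) : Prop where
  pos : ∀ C ∈ P, 0 < m C
  hR : R ∈ P
  root : ∀ C ∈ P, sub C 1 = R
  cl : ∀ C ∈ P, ∀ d, d ∣ m C → sub C d ∈ P
  hm : ∀ C ∈ P, ∀ d, d ∣ m C → m (sub C d) = d
  ss : ∀ C ∈ P, ∀ d e, d ∣ m C → e ∣ d → sub (sub C d) e = sub C e
  top : ∀ C ∈ P, sub C (m C) = C
  step : ∀ C ∈ P, ∀ q, q.Prime → q ∣ m C → Rc (Pi.single C q) (Pi.single (sub C (m C / q)) 1)

/-- restriction -/
def res (T : Finset V) (D : V → ℕ) : V → ℕ := fun C => if C ∈ T then D C else 0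

variable {Rc : (V → ℕ) → (V → ℕ) → Prop}

lemma RS.sum (h : RS Rc) {ι : Type} [DecidableEq ι] (s : Finset ι) (a b : ι → V → ℕ)
    (hs : ∀ i ∈ s, Rc (a i) (b i)) : Rc (∑ i ∈ s, a i) (∑ i ∈ s, b i) := by
  induction s using Finset.induction_on with
  | empty => exact h.drop le_rfl
  | insert i s hi ih =>
    rw [sum_insert hi, sum_insert hi]
    exact h.add (hs i (mem_insert_self _ _)) (ih fun j hj => hs j (mem_insert_of_mem hj))

lemma RS.rep (h : RS Rc) {C C' : V} {p : ℕ} (h1 : Rc (Pi.single C p) (Pi.single C' 1)) (a : ℕ) :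
    Rc (Pi.single C (p * a)) (Pi.single C' a) := by
  induction a with
  | zero => exact h.drop (by simp)
  | succ a ih =>
    rw [Nat.mul_succ, Pi.single_add, Pi.single_add]
    exact h.add ih h1

lemma RS.repA (h : RS Rc) {B : Finset V} {b : ℕ} {R : V}
    (h1 : ∀ D : V → ℕ, b ≤ ∑ C ∈ B, D C → Rc D (Pi.single R 1)) (c : ℕ) :
    ∀ D : V → ℕ, c * b ≤ ∑ C ∈ B, D C → Rc D (Pi.single R c) := by
  induction c with
  | zero => exact fun D _ => h.drop (by simp)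
  | succ c ih =>
    intro D hD
    rw [Nat.succ_mul] at hD
    obtain ⟨W, h2, h3⟩ := exact_le B D b (by omega)
    obtain ⟨E, rfl⟩ := exists_add_of_le h2
    simp only [Pi.add_apply, sum_add_distrib] at hD
    rw [add_comm c 1, Pi.single_add]
    exact h.add (h1 W h3.ge) (ih E (by omega))

lemma res_eq (T : Finset V) (D : V → ℕ) : res T D = ∑ C ∈ T, Pi.single C (D C) := by
  ext C
  simp [res, Finset.sum_apply, Pi.single_apply]

lemma sum_res {T B : Finset V} (h : T ⊆ B) (D : V → ℕ) : ∑ C ∈ B, res T D C = ∑ C ∈ T, D C := by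
  simp [res, sum_ite_mem, inter_eq_right.2 h]

lemma sum_oc_res {T B : Finset V} (h : T ⊆ B) (D : V → ℕ) :
    ∑ C ∈ B, oc (res T D C) = ∑ C ∈ T, oc (D C) := by
  rw [← sum_res h (fun C => oc (D C))]
  refine sum_congr rfl fun C _ => ?_
  unfold res
  split_ifs <;> simp [oc]

lemma RS.down (h : RS Rc) {T B : Finset V} {g : V → V} {p : ℕ}
    (h1 : ∀ C ∈ T, Rc (Pi.single C p) (Pi.single (g C) 1)) (h2 : ∀ C ∈ T, g C ∈ B) (U : V → ℕ) :
    ∃ E : V → ℕ, ∑ C ∈ B, E C = ∑ C ∈ T, U C ∧ Rc (res T fun C => p * U C) E := by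
  refine ⟨∑ C ∈ T, Pi.single (g C) (U C), ?_, ?_⟩
  · simp only [Finset.sum_apply]
    rw [sum_comm]
    refine sum_congr rfl fun C hC => ?_
    simp [Pi.single_apply, h2 C hC]
  · rw [res_eq]
    exact h.sum _ _ _ fun C hC => h.rep (h1 C hC) _

lemma sum_image_le' (s : Finset V) (g : V → V) (f : V → ℕ) :
    ∑ y ∈ s.image g, f y ≤ ∑ x ∈ s, f (g x) := by
  induction s using Finset.induction_on with
  | empty => simp
  | insert i s hi ih =>
    rw [image_insert, sum_insert hi]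
    by_cases h : g i ∈ s.image g
    · rw [insert_eq_of_mem h]; omega
    · rw [sum_insert h]; omega

variable {m : V → ℕ} {sub : V → ℕ → V} {R : V} {P : Finset V}

lemma St.mR (h : St Rc m sub R P) : m R = 1 := by
  rw [← h.root R h.hR]
  exact h.hm R h.hR 1 (one_dvd _)

lemma St.T (h : St Rc m sub R P) {p : ℕ} (hp : 0 < p) {Z : V}
    (hZ : Z ∈ (P.filter fun C => p ∣ m C).image fun C => sub C p) :
    St Rc (fun C => m C / p) (fun C d => sub C (d * p)) Z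
      ((P.filter fun C => p ∣ m C).filter fun C => sub C p = Z) := by
  obtain ⟨C0, h0, rfl⟩ := mem_image.1 hZ
  obtain ⟨h0, h1⟩ := mem_filter.1 h0
  have hd : ∀ C d, p ∣ m C → d ∣ m C / p → d * p ∣ m C := fun C d h2 h3 =>
    (Nat.dvd_div_iff_mul_dvd h2).1 h3 |> fun h => by rwa [mul_comm] at h
  constructor <;> simp only [mem_filter]
  · rintro C ⟨⟨h2, h3⟩, -⟩
    exact Nat.div_pos (Nat.le_of_dvd (h.pos C h2) h3) hp
  · exact ⟨⟨h.cl _ h0 _ h1, by rw [h.hm _ h0 _ h1]⟩, h.ss _ h0 _ _ h1 dvd_rfl⟩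
  · rintro C ⟨-, h2⟩
    rw [one_mul, h2]
  · rintro C ⟨⟨h2, h3⟩, h4⟩ d h5
    refine ⟨⟨h.cl _ h2 _ (hd C d h3 h5), ?_⟩, ?_⟩
    · rw [h.hm _ h2 _ (hd C d h3 h5)]
      exact dvd_mul_left _ _
    · rw [h.ss _ h2 _ _ (hd C d h3 h5) (dvd_mul_left _ _), h4]
  · rintro C ⟨⟨h2, h3⟩, h4⟩ d h5
    rw [h.hm _ h2 _ (hd C d h3 h5), Nat.mul_div_cancel _ hp]
  · rintro C ⟨⟨h2, h3⟩, h4⟩ d e h5 h6
    exact h.ss _ h2 _ _ (hd C d h3 h5) (Nat.mul_dvd_mul_right h6 _)
  · rintro C ⟨⟨h2, h3⟩, h4⟩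
    rw [Nat.div_mul_cancel h3, h.top C h2]
  · rintro C ⟨⟨h2, h3⟩, h4⟩ q hq h5
    have h6 : m C / p / q * p = m C / q := by
      obtain ⟨k, hk⟩ := hd C q h3 h5
      rw [hk, show q * p * k = p * (q * k) by ring, Nat.mul_div_cancel_left _ hp,
        Nat.mul_div_cancel_left _ hq.pos, show p * (q * k) = q * (k * p) by ring,
        Nat.mul_div_cancel_left _ hq.pos]
    rw [h6]
    exact h.step C h2 q hq ((dvd_mul_right _ _).trans (hd C q h3 h5))

/-- the lower part -/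
def low (m : V → ℕ) (sub : V → ℕ → V) (P : Finset V) (p : ℕ) : Finset V :=
  (P.filter fun C => ¬ p ∣ m C) ∪
    ((P.filter fun C => p ∣ m C).filter fun C => p ∣ m C / p).image fun C => sub C (m C / p)

lemma St.low_sub (h : St Rc m sub R P) (p : ℕ) : low m sub P p ⊆ P := by
  intro C hC
  simp only [low, mem_union, mem_filter, mem_image] at hC
  rcases hC with hC | ⟨C', ⟨⟨h1, h2⟩, -⟩, rfl⟩
  · exact hC.1
  · exact h.cl _ h1 _ (Nat.div_dvd_of_dvd h2)

lemma St.mem_low (h : St Rc m sub R P) {p : ℕ} {C : V} (h1 : C ∈ P) (h2 : p ∣ m C) :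
    sub C (m C / p) ∈ low m sub P p := by
  simp only [low, mem_union, mem_filter, mem_image]
  by_cases h3 : p ∣ m C / p
  · exact Or.inr ⟨C, ⟨⟨h1, h2⟩, h3⟩, rfl⟩
  · exact Or.inl ⟨h.cl _ h1 _ (Nat.div_dvd_of_dvd h2), by
      rwa [h.hm _ h1 _ (Nat.div_dvd_of_dvd h2)]⟩

lemma St.B (h : St Rc m sub R P) {p : ℕ} (hp : p.Prime) : St Rc m sub R (low m sub P p) := by
  have hs := h.low_sub p
  refine ⟨fun C hC => h.pos C (hs hC), ?_, fun C hC => h.root C (hs hC), ?_,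
    fun C hC => h.hm C (hs hC), fun C hC => h.ss C (hs hC), fun C hC => h.top C (hs hC),
    fun C hC => h.step C (hs hC)⟩
  · exact mem_union_left _ (mem_filter.2 ⟨h.hR, by rw [h.mR]; exact hp.not_dvd_one⟩)
  · intro C hC d hd
    simp only [low, mem_union, mem_filter, mem_image] at hC
    rcases hC with hC | ⟨C', ⟨⟨h1, h2⟩, -⟩, rfl⟩
    · refine mem_union_left _ (mem_filter.2 ⟨h.cl _ hC.1 _ hd, ?_⟩)
      rw [h.hm _ hC.1 _ hd]
      exact fun h3 => hC.2 (h3.trans hd)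
    · rw [h.hm _ h1 _ (Nat.div_dvd_of_dvd h2)] at hd
      rw [h.ss _ h1 _ _ (Nat.div_dvd_of_dvd h2) hd]
      have h3 : p * d ∣ m C' := (Nat.dvd_div_iff_mul_dvd h2).1 hd
      have h4 := h.mem_low (p := p) (h.cl _ h1 _ h3) (by
        rw [h.hm _ h1 _ h3]; exact dvd_mul_right _ _)
      rwa [h.hm _ h1 _ h3, Nat.mul_div_cancel_left _ hp.pos,
        h.ss _ h1 _ _ h3 (dvd_mul_left _ _)] at h4

lemma St.low_ss (h : St Rc m sub R P) {p : ℕ} (hp : p.Prime) (h1 : ∃ C ∈ P, p ∣ m C) :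
    low m sub P p ⊂ P := by
  refine (ssubset_iff_of_subset (h.low_sub p)).2 ?_
  obtain ⟨C, h2, h3⟩ := (P.filter fun C => p ∣ m C).exists_max_image m (by
    obtain ⟨C, h1⟩ := h1
    exact ⟨C, mem_filter.2 h1⟩)
  refine ⟨C, (mem_filter.1 h2).1, fun hC => ?_⟩
  simp only [low, mem_union, mem_filter, mem_image] at hC
  rcases hC with hC | ⟨C', ⟨⟨h4, h5⟩, -⟩, rfl⟩
  · exact hC.2 (mem_filter.1 h2).2
  · have := h3 C' (mem_filter.2 ⟨h4, h5⟩)
    rw [h.hm _ h4 _ (Nat.div_dvd_of_dvd h5)] at this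
    exact absurd (Nat.div_lt_self (h.pos _ h4) hp.one_lt) (not_lt.2 this)

lemma St.fle (h : St Rc m sub R P) {p : ℕ} (hp : p.Prime) :
    ∑ C ∈ low m sub P p, Nat.totient (m C) +
      (p - 1) * ∑ C ∈ P.filter fun C => p ∣ m C, Nat.totient (m C / p) ≤
      ∑ C ∈ P, Nat.totient (m C) := by
  rw [← sum_filter_add_sum_filter_not P (fun C => p ∣ m C)]
  have h1 : ∑ C ∈ low m sub P p, Nat.totient (m C) ≤
      ∑ C ∈ P.filter fun C => ¬ p ∣ m C, Nat.totient (m C) +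
      ∑ C ∈ (P.filter fun C => p ∣ m C).filter fun C => p ∣ m C / p, Nat.totient (m C / p) := by
    refine le_trans ?_ (Nat.add_le_add_left (le_trans (sum_image_le' _ (fun C => sub C (m C / p))
      (fun C => Nat.totient (m C))) (le_of_eq (sum_congr rfl fun C hC => ?_))) _)
    · rw [← sum_union_inter]
      exact Nat.le_add_right _ _
    · simp only [mem_filter] at hC
      rw [h.hm _ hC.1.1 _ (Nat.div_dvd_of_dvd hC.1.2)]
  rw [sum_filter (s := P.filter fun C => p ∣ m C)] at h1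
  have h2 : ∑ C ∈ P.filter fun C => p ∣ m C, ((if p ∣ m C / p then Nat.totient (m C / p) else 0) +
      (p - 1) * Nat.totient (m C / p)) = ∑ C ∈ P.filter fun C => p ∣ m C, Nat.totient (m C) := by
    refine sum_congr rfl fun C hC => ?_
    obtain ⟨k, hk⟩ := (mem_filter.1 hC).2
    rw [hk, Nat.mul_div_cancel_left _ hp.pos]
    split_ifs with h3
    · rw [Nat.totient_mul_of_prime_of_dvd hp h3]
      obtain ⟨s, rfl⟩ := Nat.exists_eq_add_of_le hp.one_le
      simp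
      ring
    · rw [Nat.totient_mul_of_prime_of_not_dvd hp h3, zero_add]
  rw [sum_add_distrib, ← mul_sum] at h2
  omega

lemma St.card_le (h : St Rc m sub R P) {T : Finset V} (hT : T ⊆ P) (D : V → ℕ) :
    ∑ C ∈ T, oc (D C) ≤ ∑ C ∈ P, Nat.totient (m C) :=
  (sum_le_sum fun C hC => (min_le_right _ _).trans (Nat.totient_pos.2 (h.pos C (hT hC)))).trans
    (sum_le_sum_of_subset hT)

lemma St.one_le (h : St Rc m sub R P) : 1 ≤ ∑ C ∈ P, Nat.totient (m C) :=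
  le_trans (Nat.totient_pos.2 (h.pos R h.hR))
    (single_le_sum (f := fun C => Nat.totient (m C)) (fun _ _ => Nat.zero_le _) h.hR)

end Pool.Agent.H.MP_94c9ac_al
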