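import Mathlib
import Pool.Agent.H.MP_94c9ac_al.Peb

set_option autoImplicit false
set_option maxHeartbeats 400000

namespace Pool.Agent.H.MP_94c9ac_al

open Finset

variable {V : Type} [DecidableEq V] {Rc : (V → ℕ) → (V → ℕ) → Prop}

/-- the two pebbling properties -/
def AB (Rc : (V → ℕ) → (V → ℕ) → Prop) (m : V → ℕ) (R : V) (P : Finset V) : Prop :=
  (∀ D : V → ℕ, ∑ C ∈ P, Nat.totient (m C) ≤ ∑ C ∈ P, D C → Rc D (Pi.single R 1)) ∧
  ∀ (t : ℕ) (D : V → ℕ), 2 ≤ t → (∀ C ∈ P, ∀ q, q.Prime → q ∣ m C → q ≤ t) →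
    t * ∑ C ∈ P, Nat.totient (m C) < ∑ C ∈ P, D C + ∑ C ∈ P, oc (D C) → Rc D (Pi.single R t)

theorem peb (hRc : RS Rc) (P : Finset V) : ∀ (m : V → ℕ) (sub : V → ℕ → V) (R : V),
    St Rc m sub R P → AB Rc m R P := by
  induction P using Finset.strongInduction with
  | H P ih =>
  intro m sub R h
  by_cases h0 : ∀ C ∈ P, m C = 1
  · have h1 : P = {R} := eq_singleton_iff_unique_mem.2 ⟨h.hR, fun C hC => by
      rw [← h.top C hC, h0 C hC, h.root C hC]⟩
    have h2 : ∀ (D : V → ℕ) k, k ≤ D R → Rc D (Pi.single R k) := fun D k hk =>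
      hRc.drop fun C => by
        by_cases h3 : C = R
        · subst h3; simpa using hk
        · simp [h3]
    rw [h1]
    refine ⟨fun D hD => h2 D 1 ?_, fun t D _ _ hD => h2 D t ?_⟩
    · simpa [h.mR] using hD
    · simp only [sum_singleton, h.mR, Nat.totient_one, oc] at hD
      omega
  obtain ⟨p, hp, hp1, hp2⟩ : ∃ p, p.Prime ∧ (∃ C ∈ P, p ∣ m C) ∧
      ∀ C ∈ P, ∀ q, q.Prime → q ∣ m C → q ≤ p := by
    push Not at h0
    obtain ⟨C, h1, h2⟩ := h0
    obtain ⟨p, h3, h4⟩ := (P.biUnion fun C => (m C).primeFactors).exists_max_image id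
      ⟨(m C).minFac, mem_biUnion.2 ⟨C, h1, Nat.mem_primeFactors.2
        ⟨Nat.minFac_prime h2, Nat.minFac_dvd _, (h.pos C h1).ne'⟩⟩⟩
    obtain ⟨C', h5, h6⟩ := mem_biUnion.1 h3
    exact ⟨p, (Nat.mem_primeFactors.1 h6).1, ⟨C', h5, (Nat.mem_primeFactors.1 h6).2.1⟩,
      fun C hC q hq h7 => h4 q (mem_biUnion.2 ⟨C, hC, Nat.mem_primeFactors.2
        ⟨hq, h7, (h.pos C hC).ne'⟩⟩)⟩
  have hB := h.B hp
  have ihB := ih _ (h.low_ss hp hp1) _ _ _ hB
  have hf := h.fle hp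
  have hml := fun C => h.mem_low (p := p) (C := C)
  have hT := fun Z => h.T hp.pos (Z := Z)
  have hP0B : (P.filter fun C => ¬ p ∣ m C) ⊆ low m sub P p := subset_union_left
  have hBP := h.low_sub p
  generalize low m sub P p = B at *
  have hsp := fun g : V → ℕ => sum_filter_add_sum_filter_not P (fun C => p ∣ m C) g
  obtain ⟨P0, hP0⟩ : ∃ P0, P0 = P.filter fun C => ¬ p ∣ m C := ⟨_, rfl⟩
  obtain ⟨P1, hP1⟩ : ∃ P1, P1 = P.filter fun C => p ∣ m C := ⟨_, rfl⟩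
  rw [← hP0] at hsp hP0B
  rw [← hP1] at hsp hT hf
  obtain ⟨Zs, hZs⟩ : ∃ Zs, Zs = P1.image fun C => sub C p := ⟨_, rfl⟩
  obtain ⟨T, hT'⟩ : ∃ T : V → Finset V, T = fun Z => P1.filter fun C => sub C p = Z := ⟨_, rfl⟩
  have hfib : ∀ g : V → ℕ, ∑ Z ∈ Zs, ∑ C ∈ T Z, g C = ∑ C ∈ P1, g C := fun g => by
    rw [hT', hZs]
    exact sum_fiberwise_of_maps_to (fun C hC => mem_image_of_mem _ hC) g
  replace hT : ∀ Z ∈ Zs, St Rc (fun C => m C / p) (fun C d => sub C (d * p)) Z (T Z) := by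
    rw [hT', hZs]; exact hT
  have m0 : ∀ C, C ∈ P0 ↔ C ∈ P ∧ ¬ p ∣ m C := fun C => by rw [hP0, mem_filter]
  have m1 : ∀ C, C ∈ P1 ↔ C ∈ P ∧ p ∣ m C := fun C => by rw [hP1, mem_filter]
  have mT : ∀ Z C, C ∈ T Z ↔ (C ∈ P ∧ p ∣ m C) ∧ sub C p = Z := fun Z C => by
    rw [hT', mem_filter, m1]
  have hZ1 : ∀ Z ∈ Zs, Z ∈ P ∧ m Z = p := by
    intro Z hZ
    rw [hZs] at hZ
    obtain ⟨C, h1, rfl⟩ := mem_image.1 hZ
    rw [m1] at h1
    exact ⟨h.cl _ h1.1 _ h1.2, h.hm _ h1.1 _ h1.2⟩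
  have can : ∀ Z ∈ Zs, ∀ (a : ℕ) (D : V → ℕ), a = 0 ∨
      p * a * ∑ C ∈ T Z, Nat.totient (m C / p) < ∑ C ∈ T Z, D C + ∑ C ∈ T Z, oc (D C) →
      Rc (res (T Z) D) (Pi.single R a) := by
    intro Z hZ a D hD
    rcases Nat.eq_zero_or_pos a with rfl | ha
    · exact hRc.drop (by simp)
    have h1 : T Z ⊂ P := (ssubset_iff_of_subset fun C hC => ((mT Z C).1 hC).1.1).2
      ⟨R, h.hR, fun h2 => hp.not_dvd_one (h.mR ▸ ((mT Z R).1 h2).1.2)⟩
    have h2 : p ≤ p * a := Nat.le_mul_of_pos_right _ ha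
    have h3 := (ih _ h1 _ _ _ (hT Z hZ)).2 (p * a) (res (T Z) D) (hp.two_le.trans h2)
      (fun C hC q hq h4 => (hp2 C ((mT Z C).1 hC).1.1 q hq
        (h4.trans (Nat.div_dvd_of_dvd ((mT Z C).1 hC).1.2))).trans h2)
      (by rw [sum_res subset_rfl, sum_oc_res subset_rfl]; exact hD.resolve_left ha.ne')
    have h4 := h.step Z (hZ1 Z hZ).1 p hp (by rw [(hZ1 Z hZ).2])
    rw [(hZ1 Z hZ).2, Nat.div_self hp.pos, h.root Z (hZ1 Z hZ).1] at h4
    exact hRc.trans h3 (hRc.rep h4 a)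
  have dn : ∀ S : Finset V, (∀ C ∈ S, C ∈ P ∧ p ∣ m C) → ∀ U : V → ℕ,
      ∃ E : V → ℕ, ∑ C ∈ B, E C = ∑ C ∈ S, U C ∧ Rc (res S fun C => p * U C) E := fun S hS U =>
    hRc.down (g := fun C => sub C (m C / p)) (fun C hC => h.step C (hS C hC).1 p hp (hS C hC).2)
      (fun C hC => hml C (hS C hC).1 (hS C hC).2) U
  have hres : ∀ (S : Finset V) (D : V → ℕ), res S D ≤ D := fun S D C => by
    unfold res; split_ifs <;> simp
  obtain ⟨f, hf'⟩ : ∃ f : V → ℕ, ∀ Z, ∑ C ∈ T Z, Nat.totient (m C / p) = f Z := ⟨_, fun _ => rfl⟩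
  rw [← hfib] at hf
  simp only [hf'] at hf can
  have hf1 : ∀ Z ∈ Zs, 1 ≤ f Z := fun Z hZ => hf' Z ▸ (hT Z hZ).one_le
  constructor
  · intro D hD
    by_cases h1 : ∃ Z ∈ Zs, p * 1 * f Z < ∑ C ∈ T Z, D C + ∑ C ∈ T Z, oc (D C)
    · obtain ⟨Z, hZ, h1⟩ := h1
      exact hRc.trans (hRc.drop (hres _ _)) (can Z hZ 1 D (Or.inr h1))
    push Not at h1
    have h2 := sum_le_sum h1
    rw [sum_add_distrib, hfib, hfib, ← mul_sum, mul_one] at h2
    rw [← hsp D] at hD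
    by_cases h3 : ∑ C ∈ B, Nat.totient (m C) ≤ ∑ C ∈ P0, D C
    · exact hRc.trans (hRc.drop (hres _ _)) (ihB.1 (res P0 D) (by rwa [sum_res hP0B]))
    obtain ⟨u, hu⟩ := Nat.exists_eq_add_of_le (not_le.1 h3).le
    obtain ⟨U, h3, h4⟩ := extr P1 D p 0 u hp.pos (by norm_num) (by
        obtain ⟨s, rfl⟩ := Nat.exists_eq_add_of_le hp.one_le
        simp only [add_zero, Nat.add_sub_cancel_left] at hf ⊢
        have h5 : u + s * ∑ Z ∈ Zs, f Z ≤ ∑ C ∈ P1, D C := by omega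
        have := Nat.mul_le_mul_left s h2
        nlinarith)
    obtain ⟨E, h5, h6⟩ := dn P1 (fun C hC => (m1 C).1 hC) U
    refine hRc.trans (hRc.drop (b := res P0 D + res P1 fun C => p * U C) fun C => ?_)
      (hRc.trans (hRc.add (hRc.drop le_rfl) h6) (ihB.1 _ ?_))
    · have := h3 C
      have := m0 C
      have := m1 C
      simp only [res, Pi.add_apply]
      split_ifs <;> first | omega | tauto
    · simp only [Pi.add_apply, sum_add_distrib, sum_res hP0B]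
      omega
  intro t D ht ht' hD
  have hpt : p ≤ t := by
    obtain ⟨C, h1, h2⟩ := hp1
    exact ht' C h1 p hp h2
  rw [← hsp D, ← hsp fun C => oc (D C), ← hfib, ← hfib] at hD
  obtain ⟨w, hw⟩ : ∃ w : V → ℕ, ∀ Z, ∑ C ∈ T Z, D C + ∑ C ∈ T Z, oc (D C) = w Z :=
    ⟨_, fun _ => rfl⟩
  have hw' : ∑ Z ∈ Zs, ∑ C ∈ T Z, D C + ∑ Z ∈ Zs, ∑ C ∈ T Z, oc (D C) = ∑ Z ∈ Zs, w Z := by
    rw [← sum_add_distrib]
    exact sum_congr rfl fun Z _ => hw Z
  have hq : ∑ C ∈ P0, oc (D C) ≤ ∑ C ∈ P0, D C := sum_le_sum fun C _ => min_le_left _ _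
  by_cases hp3 : p = 2
  · subst hp3
    have h1 : P0 = {R} := eq_singleton_iff_unique_mem.2 ⟨(m0 R).2 ⟨h.hR, by rw [h.mR]; norm_num⟩,
      fun C hC => by
        obtain ⟨h1, h2⟩ := (m0 C).1 hC
        have : m C = 1 := by
          by_contra h3
          have h4 := Nat.minFac_prime h3
          have h5 := hp2 C h1 _ h4 (Nat.minFac_dvd _)
          exact h2 (le_antisymm h5 h4.two_le ▸ Nat.minFac_dvd _)
        rw [← h.top C h1, this, h.root C h1]⟩
    have h2 : ∀ Z ∈ Zs, 2 * f Z ≤ ∑ C ∈ T Z, Nat.totient (m C) + 1 := by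
      intro Z hZ
      rw [← hf', ← add_sum_erase _ _ (hT Z hZ).hR, ← add_sum_erase _ _ (hT Z hZ).hR,
        (hZ1 Z hZ).2, mul_add, mul_sum]
      have : ∑ C ∈ (T Z).erase Z, 2 * Nat.totient (m C / 2) =
          ∑ C ∈ (T Z).erase Z, Nat.totient (m C) := by
        refine sum_congr rfl fun C hC => ?_
        obtain ⟨h3, h4⟩ := mem_erase.1 hC
        obtain ⟨⟨h4, k, h5⟩, h6⟩ := (mT Z C).1 h4
        have h7 : k ≠ 1 := by
          rintro rfl
          have h7 := h.top C h4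
          rw [h5] at h7
          exact h3 (h7.symm.trans h6)
        have h8 := Nat.minFac_prime h7
        have h9 := hp2 C h4 _ h8 ((Nat.minFac_dvd _).trans (h5 ▸ dvd_mul_left _ _))
        rw [h5, Nat.mul_div_cancel_left _ hp.pos,
          Nat.totient_mul_of_prime_of_dvd hp (le_antisymm h9 h8.two_le ▸ Nat.minFac_dvd _)]
      rw [this]
      simp
      omega
    have h3 := sum_le_sum h2
    rw [← mul_sum, sum_add_distrib, hfib, sum_const, smul_eq_mul, mul_one] at h3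
    have h4 := hsp fun C => Nat.totient (m C)
    rw [h1, sum_singleton, h.mR, Nat.totient_one] at h4
    obtain ⟨a, h5, h6⟩ := ar2 Zs w f hf1 t _ _ (∑ C ∈ P, Nat.totient (m C)) ht hq
      (by rw [h1, sum_singleton]; exact min_le_right _ _) (by omega) (by omega)
    have h7 := hRc.sum Zs _ _ fun Z hZ => can Z hZ (a Z) D (by rw [hw]; exact h6 Z hZ)
    refine hRc.trans (hRc.drop (b := Pi.single R (D R) + ∑ Z ∈ Zs, res (T Z) D) fun C => ?_)
      (hRc.trans (hRc.add (hRc.drop le_rfl) h7) (hRc.drop fun C => ?_))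
    · simp only [Pi.add_apply, Finset.sum_apply, res, mT]
      by_cases h8 : C = R
      · subst h8
        simp [h.mR]
      · by_cases h9 : C ∈ P ∧ 2 ∣ m C
        · simp [h8, h9]
          split_ifs <;> simp
        · simp [h8, h9]
    · rw [h1, sum_singleton] at h5
      by_cases h8 : C = R
      · subst h8
        simpa [Finset.sum_apply] using h5
      · simp [h8]
  obtain ⟨s, rfl⟩ := Nat.exists_eq_add_of_le' (show 3 ≤ p by have := hp.two_le; omega)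
  obtain ⟨r, rfl⟩ := Nat.exists_eq_add_of_le hpt
  by_cases h1 : (s + 3 + r) * ∑ C ∈ B, Nat.totient (m C) < ∑ C ∈ P0, D C + ∑ C ∈ P0, oc (D C)
  · exact hRc.trans (hRc.drop (hres _ _)) (ihB.2 _ (res P0 D) ht (fun C hC => ht' C (hBP hC))
      (by rwa [sum_res hP0B, sum_oc_res hP0B]))
  have h2 := Nat.mul_le_mul_left (s + 3 + r) hf
  rw [show s + 3 - 1 = s + 2 from rfl, mul_add, ← mul_assoc, mul_sum Zs] at h2
  obtain ⟨Z, hZ, h3⟩ := exists_lt_of_sum_lt (s := Zs)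
    (f := fun Z => (s + 3 + r) * (s + 2) * f Z) (g := w) (by omega)
  by_cases h4 : ∃ Y ∈ Zs.erase Z, (s + 3 + r) * (s + 2) * f Y < w Y
  · obtain ⟨Y, hY, h4⟩ := h4
    obtain ⟨h5, hY⟩ := mem_erase.1 hY
    obtain ⟨a, ha⟩ : ∃ a, a = (s + 3 + r) / 2 := ⟨_, rfl⟩
    obtain ⟨c, hc⟩ := Nat.exists_eq_add_of_le (show a ≤ s + 3 + r by omega)
    have h6 : (s + 3) * c ≤ (s + 3 + r) * (s + 2) := by
      have : 2 * c ≤ s + 4 + r := by omega
      nlinarith [Nat.zero_le (s * r), Nat.zero_le (s * s)]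
    have h7 : (s + 3) * a ≤ (s + 3 + r) * (s + 2) :=
      (Nat.mul_le_mul_left _ (by omega)).trans h6
    have h8 := hRc.add
      (can Z hZ a D (Or.inr (by rw [hw]; exact (Nat.mul_le_mul_right _ h7).trans_lt h3)))
      (can Y hY c D (Or.inr (by rw [hw]; exact (Nat.mul_le_mul_right _ h6).trans_lt h4)))
    rw [← Pi.single_add, ← hc] at h8
    refine hRc.trans (hRc.drop fun C => ?_) h8
    simp only [res, Pi.add_apply, mT]
    split_ifs with h9 h10
    · exact absurd (h10.2.symm.trans h9.2) h5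
    all_goals omega
  push Not at h4
  have h5 := sum_le_sum h4
  rw [← add_sum_erase _ _ hZ] at h2
  rw [← add_sum_erase _ w hZ] at hw'
  obtain ⟨a, c, u, h6, h7, h8, h9, h10⟩ := ar1 s r _ (f Z) _ _ (w Z) hB.one_le hq
    (hB.card_le hP0B D) (not_lt.1 h1) (by omega)
  obtain ⟨U, h11, h12⟩ : ∃ U : V → ℕ, (∀ C, (s + 3) * U C + 1 * oc (D C) ≤ D C) ∧
      ∑ C ∈ T Z, U C = u := by
    rcases h10 with rfl | h10
    · exact ⟨0, fun C => by simp [oc], by simp⟩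
    · refine extr _ _ _ _ _ hp.pos le_rfl ?_
      have h11 := (hT Z hZ).card_le subset_rfl D
      rw [hf'] at h11
      have h12 := hw Z
      have h13 := Nat.mul_le_mul_left ((s + 3) * f Z) h10
      have h14 := Nat.mul_le_mul_left (s + 4) h11
      rw [show s + 3 - 1 + 1 = s + 3 from rfl]
      nlinarith [Nat.zero_le (s * f Z)]
  obtain ⟨E, h13, h14⟩ := dn (T Z) (fun C hC => ((mT Z C).1 hC).1) U
  obtain ⟨D', hD'⟩ : ∃ D' : V → ℕ, ∀ C, D C = (s + 3) * U C + D' C :=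
    ⟨fun C => D C - (s + 3) * U C, fun C => by have := h11 C; simp only []; omega⟩
  have h15 := can Z hZ a D' (Or.inr (by
    have h15 : ∑ C ∈ T Z, oc (D' C) = ∑ C ∈ T Z, oc (D C) := sum_congr rfl fun C _ => by
      have := h11 C
      have := hD' C
      unfold oc at *
      omega
    have h16 : ∑ C ∈ T Z, D C = (s + 3) * u + ∑ C ∈ T Z, D' C := by
      rw [← h12, mul_sum, ← sum_add_distrib]
      exact sum_congr rfl fun C _ => hD' C
    have := hw Z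
    omega))
  have h16 := hRc.add h15 (hRc.trans (hRc.add (hRc.drop (le_refl (res P0 D))) h14)
    (hRc.repA ihB.1 c _ (by
      simp only [Pi.add_apply, sum_add_distrib, sum_res hP0B]
      omega)))
  rw [← Pi.single_add, h6] at h16
  refine hRc.trans (hRc.drop fun C => ?_) h16
  have := hD' C
  have := m0 C
  have := mT Z C
  simp only [res, Pi.add_apply]
  split_ifs <;> first | omega | tauto

end Pool.Agent.H.MP_94c9ac_al
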