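import Mathlib
import Pool.Agent.H.MP_94c9ac_al.Main

set_option autoImplicit false
set_option maxHeartbeats 400000

namespace Pool.Agent.H.MP_94c9ac_al

open Finset Subgroup

variable {G : Type} [Group G] {ι : Type}

/-- elements of `C` killed by `d` -/
def sb (C : Subgroup G) (d : ℕ) : Subgroup G := closure {x | x ∈ C ∧ x ^ d = 1}

lemma mem_iff [Finite G] (g : G) {d : ℕ} (hd : d ∣ orderOf g) (x : G) :
    (x ∈ zpowers g ∧ x ^ d = 1) ↔ x ∈ zpowers (g ^ (orderOf g / d)) := by
  constructor
  · rintro ⟨h1, h2⟩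
    obtain ⟨k, rfl⟩ := (mem_powers_iff_mem_zpowers.2 h1)
    simp only [] at h2 ⊢
    rw [← pow_mul, ← orderOf_dvd_iff_pow_eq_one] at h2
    obtain ⟨e, he⟩ := hd
    have hd0 : 0 < d := Nat.pos_of_ne_zero fun h => (orderOf_pos g).ne' (by simp [he, h])
    rw [he, Nat.mul_div_cancel_left _ hd0]
    rw [he, mul_comm k] at h2
    obtain ⟨j, rfl⟩ := Nat.dvd_of_mul_dvd_mul_left hd0 h2
    rw [pow_mul]
    exact npow_mem_zpowers _ _
  · intro h1
    obtain ⟨k, rfl⟩ := (mem_powers_iff_mem_zpowers.2 h1)
    simp only []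
    refine ⟨pow_mem (npow_mem_zpowers _ _) _, ?_⟩
    rw [← pow_mul, ← pow_mul, mul_comm k, ← mul_assoc, Nat.div_mul_cancel hd, pow_mul,
      pow_orderOf_eq_one, one_pow]

lemma sb_eq [Finite G] (g : G) {d : ℕ} (hd : d ∣ orderOf g) :
    sb (zpowers g) d = zpowers (g ^ (orderOf g / d)) := by
  unfold sb
  rw [← closure_eq (zpowers (g ^ (orderOf g / d)))]
  congr 1
  ext x
  exact mem_iff g hd x

/-- a good bundle -/
def Good (g : ι → G) (x : List ι × Subgroup G) : Prop :=
  x.1 ≠ [] ∧ (x.1.map g).prod ∈ x.2 ∧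
    (x.1.map fun i => (1 : ℚ) / orderOf (g i)).sum ≤ 1 / Nat.card x.2

open Classical in
/-- a distribution of pebbles is realised by disjoint bundles -/
def Real (g : ι → G) (D : Subgroup G → ℕ) : Prop :=
  ∃ M : Multiset (List ι × Subgroup G), (∀ C, D C ≤ (M.map Prod.snd).count C) ∧
    (∀ x ∈ M, Good g x) ∧ (M.bind fun x => (x.1 : Multiset ι)).Nodup

lemma seg (p : ℕ) (hp : 0 < p) {X : Type} (a : List X) (ha : a.length = p) (e : X → ℕ) :
    ∃ s : List X, s ≠ [] ∧ s.Sublist a ∧ p ∣ (s.map e).sum := by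
  have : NeZero p := ⟨hp.ne'⟩
  obtain ⟨i, j, h1, h2⟩ := Fintype.exists_ne_map_eq_of_card_lt
    (fun i : Fin (p + 1) => ((((a.take i).map e).sum : ℕ) : ZMod p)) (by simp)
  wlog h : i < j generalizing i j
  · exact this j i h1.symm h2.symm (lt_of_le_of_ne (not_lt.1 h) h1.symm)
  have h3 : i.1 < j.1 := h
  have h4 := j.2
  refine ⟨(a.take j).drop i, ?_, (List.drop_sublist _ _).trans (List.take_sublist _ _), ?_⟩
  · intro h5
    have := congrArg List.length h5
    simp at this
    omega
  · have h5 : a.take j = a.take i ++ (a.take j).drop i := by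
      conv_lhs => rw [← List.take_append_drop i (a.take j)]
      rw [List.take_take, min_eq_left h3.le]
    rw [h5, List.map_append, List.sum_append, Nat.cast_add] at h2
    exact (ZMod.natCast_eq_zero_iff _ _).1 (by linear_combination -h2)

open Classical in
lemma real_step [Finite G] (g : ι → G) (y : G) (q : ℕ) (hq : q.Prime) (h : q ∣ orderOf y)
    (E : Subgroup G → ℕ) (h1 : Real g (Pi.single (zpowers y) q + E)) :
    Real g (Pi.single (zpowers (y ^ q)) 1 + E) := by
  obtain ⟨M, h1, h2, h3⟩ := h1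
  obtain ⟨a, h4, h5, h6⟩ : ∃ a : List (List ι × Subgroup G), (a : Multiset _) ≤ M ∧ a.length = q ∧
      ∀ x ∈ a, x.2 = zpowers y := by
    have h4 := h1 (zpowers y)
    rw [Multiset.count_map] at h4
    refine ⟨(M.filter fun x => zpowers y = x.2).toList.take q, ?_, ?_, fun x hx => ?_⟩
    · refine le_trans (Multiset.coe_le.2 (List.take_sublist _ _).subperm) ?_
      rw [Multiset.coe_toList]
      exact Multiset.filter_le _ _
    · simp at h4 ⊢
      omega
    · exact (Multiset.mem_filter.1 (Multiset.mem_toList.1 (List.mem_of_mem_take hx))).2.symm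
  obtain ⟨M', rfl⟩ := Multiset.le_iff_exists_add.1 h4
  have h7 : ∀ x : List ι × Subgroup G, ∃ k : ℕ, x ∈ a → (x.1.map g).prod = y ^ k := by
    intro x
    by_cases hx : x ∈ a
    · have h7 := (h2 x (Multiset.mem_add.2 (Or.inl hx))).2.1
      rw [h6 x hx] at h7
      obtain ⟨k, hk⟩ := mem_powers_iff_mem_zpowers.2 h7
      exact ⟨k, fun _ => hk.symm⟩
    · exact ⟨0, fun h => absurd h hx⟩
  choose e he using h7
  obtain ⟨s, h8, h9, k, h10⟩ := seg q hq.pos a h5 e
  have h11 : ∀ s : List (List ι × Subgroup G), (∀ x ∈ s, x ∈ a) →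
      ((s.flatMap Prod.fst).map g).prod = y ^ (s.map e).sum ∧
      ((s.flatMap Prod.fst).map fun i => (1 : ℚ) / orderOf (g i)).sum ≤
        s.length * (1 / orderOf y) := by
    intro s hs
    induction s with
    | nil => simp
    | cons x s ih =>
      obtain ⟨ih1, ih2⟩ := ih fun z hz => hs z (List.mem_cons_of_mem _ hz)
      have hx := hs x List.mem_cons_self
      have h12 := (h2 x (Multiset.mem_add.2 (Or.inl hx))).2.2
      rw [h6 x hx, Nat.card_zpowers] at h12
      simp only [List.flatMap_cons, List.map_append, List.prod_append, List.sum_append,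
        List.map_cons, List.sum_cons, List.length_cons, ih1, he x hx, pow_add, true_and]
      push_cast
      linarith
  obtain ⟨h12, h13⟩ := h11 s fun x hx => h9.subset hx
  refine ⟨(s.flatMap Prod.fst, zpowers (y ^ q)) ::ₘ M', fun C => ?_, fun x hx => ?_, ?_⟩
  · have h14 := h1 C
    have h15 : (a : Multiset (List ι × Subgroup G)).map Prod.snd =
        Multiset.replicate q (zpowers y) := Multiset.eq_replicate.2 ⟨by simpa using h5, by
      simpa using fun b a1 h => h6 (a1, b) h⟩
    rw [Multiset.map_add, Multiset.count_add, h15, Multiset.count_replicate] at h14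
    rw [Multiset.map_cons, Multiset.count_cons]
    simp only [Pi.add_apply, Pi.single_apply, eq_comm (a := zpowers y)] at h14 ⊢
    omega
  · rcases Multiset.mem_cons.1 hx with rfl | hx
    · refine ⟨?_, ?_, h13.trans ?_⟩
      · obtain ⟨x, s, rfl⟩ := List.exists_cons_of_ne_nil h8
        have := (h2 x (Multiset.mem_add.2 (Or.inl (h9.subset List.mem_cons_self)))).1
        simp [this]
      · rw [h12, h10, pow_mul]
        exact npow_mem_zpowers _ _
      · have h14 : (s.length : ℚ) ≤ q := by exact_mod_cast h5 ▸ h9.length_le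
        rw [Nat.card_zpowers, orderOf_pow_of_dvd hq.ne_zero h]
        obtain ⟨j, hj⟩ := h
        have hj0 : 0 < j := Nat.pos_of_ne_zero fun h => (orderOf_pos y).ne' (by simp [hj, h])
        have h15 : (0 : ℚ) < q := by exact_mod_cast hq.pos
        have h16 : (0 : ℚ) < j := by exact_mod_cast hj0
        rw [hj, Nat.mul_div_cancel_left _ hq.pos]
        push_cast
        refine (mul_le_mul_of_nonneg_right h14 (by positivity)).trans (le_of_eq ?_)
        field_simp
    · exact h2 x (Multiset.mem_add.2 (Or.inr hx))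
  · refine Multiset.nodup_of_le ?_ h3
    rw [Multiset.cons_bind, Multiset.add_bind]
    refine Multiset.add_le_add_right ?_
    rw [Multiset.coe_bind]
    exact Multiset.coe_le.2 (h9.flatMap _).subperm

open Classical in
theorem main [Finite G] (g : Fin (Nat.card G) → G) :
    ∃ L : List (Fin (Nat.card G)), L ≠ [] ∧ L.Nodup ∧ (L.map g).prod = 1 ∧
      (L.map fun i => (1 : ℚ) / orderOf (g i)).sum ≤ 1 := by
  have := Fintype.ofFinite G
  obtain ⟨Rc, hRc⟩ : ∃ Rc : (Subgroup G → ℕ) → (Subgroup G → ℕ) → Prop,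
      ∀ D D', Rc D D' ↔ ∀ E, Real g (D + E) → Real g (D' + E) := ⟨_, fun _ _ => Iff.rfl⟩
  have h1 : RS Rc := by
    constructor <;> simp only [hRc]
    · exact fun h1 h2 E h => h2 E (h1 E h)
    · intro a b c d h1 h2 E h
      rw [add_assoc] at h
      have h3 := h1 _ h
      rw [add_left_comm] at h3
      rw [add_assoc, add_left_comm]
      exact h2 _ h3
    · rintro a b h E ⟨M, h1, h2⟩
      exact ⟨M, fun C => (Nat.add_le_add_right (h C) _).trans (h1 C), h2⟩
  have h2 : St Rc (fun C => Nat.card C) sb ⊥ (univ.image zpowers) := by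
    have ho : ∀ (y : G) d, d ∣ orderOf y → orderOf (y ^ (orderOf y / d)) = d := fun y d hd =>
      orderOf_pow_orderOf_div (orderOf_pos y).ne' hd
    constructor <;> simp only [mem_image, mem_univ, true_and, forall_exists_index,
      forall_apply_eq_imp_iff, Nat.card_zpowers]
    · exact orderOf_pos
    · exact ⟨1, zpowers_one_eq_bot⟩
    · intro y
      rw [sb_eq y (one_dvd _), Nat.div_one, pow_orderOf_eq_one, zpowers_one_eq_bot]
    · exact fun y d hd => ⟨_, (sb_eq y hd).symm⟩
    · intro y d hd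
      rw [sb_eq y hd, Nat.card_zpowers, ho y d hd]
    · intro y d e hd he
      rw [sb_eq y hd]
      unfold sb
      congr 1
      ext x
      simp only [Set.mem_ofPred_eq, ← mem_iff y hd]
      obtain ⟨k, rfl⟩ := he
      exact ⟨fun h => ⟨h.1.1, h.2⟩, fun h => ⟨⟨h.1, by rw [pow_mul, h.2, one_pow]⟩, h.2⟩⟩
    · intro y
      rw [sb_eq y dvd_rfl, Nat.div_self (orderOf_pos y), pow_one]
    · intro y q hq h
      rw [hRc, sb_eq y (Nat.div_dvd_of_dvd h), Nat.div_div_self h (orderOf_pos y).ne']
      exact real_step g y q hq h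
  have h3 : ∑ C ∈ univ.image (zpowers : G → Subgroup G), Nat.totient (Nat.card C) ≤ Nat.card G := by
    rw [Nat.card_eq_fintype_card (α := G), ← card_univ,
      card_eq_sum_card_image (zpowers : G → Subgroup G)]
    refine sum_le_sum fun C hC => ?_
    obtain ⟨y, -, rfl⟩ := mem_image.1 hC
    rw [Nat.card_zpowers, Nat.totient_eq_card_coprime]
    refine card_le_card_of_injOn (fun k => y ^ k) (fun k hk => ?_) fun k hk j hj h =>
      pow_injOn_Iio_orderOf (mem_range.1 (mem_filter.1 hk).1) (mem_range.1 (mem_filter.1 hj).1) h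
    refine mem_coe.2 (mem_filter.2 ⟨mem_univ _, eq_of_le_of_card_ge
      (zpowers_le.2 (npow_mem_zpowers _ _)) ?_⟩)
    rw [Nat.card_zpowers, Nat.card_zpowers, (mem_filter.1 hk).2.orderOf_pow]
  have h4 := (hRc _ _).1 ((peb h1 _ _ _ _ h2).1
    (fun C => (univ.filter fun i => zpowers (g i) = C).card) (by
      rw [← card_eq_sum_card_fiberwise (f := fun i => zpowers (g i))
        (fun i _ => mem_coe.2 (mem_image_of_mem zpowers (mem_univ (g i))))]
      simpa using h3)) 0 ⟨univ.val.map fun i => ([i], zpowers (g i)), fun C => by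
        rw [Multiset.map_map, Multiset.count_map, add_zero]
        simp only [Function.comp, eq_comm (a := C)]
        rfl, fun x hx => by
        obtain ⟨i, -, rfl⟩ := Multiset.mem_map.1 hx
        simp [Good, -Nat.card_eq_fintype_card], by
        rw [Multiset.bind_map]
        simp only [Multiset.coe_singleton]
        rw [Multiset.bind_singleton _ (fun a => a), Multiset.map_id']
        exact Finset.nodup _⟩
  obtain ⟨M, h4, h5, h6⟩ := h4
  have h7 := h4 ⊥
  simp only [add_zero, Pi.single_eq_same] at h7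
  obtain ⟨x, hx, h8⟩ := Multiset.mem_map.1 (Multiset.one_le_count_iff_mem.1 h7)
  obtain ⟨h9, h10, h11⟩ := h5 x hx
  rw [h8] at h10 h11
  exact ⟨x.1, h9, Multiset.coe_nodup.1 ((Multiset.nodup_bind.1 h6).1 x hx),
    mem_bot.1 h10, by simpa using h11⟩

end Pool.Agent.H.MP_94c9ac_al
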